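import Pool.Agent.HFT.BCh

/-! # Hughes-free division rings and the coefficient ring

Let `R` be a division ring which is an algebra over a field `k` (for example its prime field) and
such that every finite subset of `R` lies in a division subring containing `k` which is finite
dimensional over its centre; for instance `R` is a commutative field, or is finite dimensional over its centre,
or is a directed union of such division rings. Let `G` be a locally indicable group. Then `R G` has a
Hughes-free division ring if and only if `k G` has one. -/

set_option autoImplicit false

universe u

namespace Pool.Agent.Results.MP_0514ba_al.BaseChange

open Pool.Agent.HFT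

theorem result (k R : Type u) [Field k] [DivisionRing R] [Algebra k R]
    (hR : ∀ F : Finset R, ∃ D : Subfield R, (∀ x ∈ F, x ∈ D) ∧
      (∀ c : k, algebraMap k R c ∈ D) ∧ Module.Finite (Subring.center D) D)
    (G : Type u) [Group G] (hG : LocIndic G) : HasHF R G ↔ HasHF k G :=
  baseChange hR hG

end Pool.Agent.Results.MP_0514ba_al.BaseChange
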