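import Pool.Agent.HFT.AsmA
import Pool.Agent.HFT.AsmH
import Pool.Agent.HFT.LocHF
import Pool.Agent.HFT.SubHF

/-! # Hughes-free division rings for locally indicable groups with a hierarchy

Let `P` be a class of groups and `R` a division ring such that `R G` has a Hughes-free division
ring for all `G` in `P`. Then `R G` has a Hughes-free division ring for all `G` in the smallest
class that contains `P` and the trivial groups, is closed under subgroups, contains every group
all of whose finitely generated subgroups it contains, and contains every locally indicable amalgam
and every locally indicable HNN extension of its members. -/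

set_option autoImplicit false

universe u

namespace Pool.Agent.Results.MP_0514ba_al.HierarchyClosure

open Pool.Agent.HFT

/-- The class of groups generated by a class `P` of groups and the trivial groups under subgroups
(up to isomorphism), groups all of whose finitely generated subgroups are in the class, locally
indicable amalgams and locally indicable HNN extensions (over arbitrary edge groups). -/
inductive Hier (P : ∀ (G : Type u) [Group G], Prop) : ∀ (G : Type u) [Group G], Prop
  | base (G : Type u) [Group G] (h : P G) : Hier P G
  | triv (G : Type u) [Group G] (h : Subsingleton G) : Hier P G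
  | sub (G H : Type u) [Group G] [Group H] (j : H →* G) (hj : Function.Injective j)
      (hG : Hier P G) : Hier P H
  | loc (G : Type u) [Group G] (h : ∀ H : Subgroup G, H.FG → Hier P H) : Hier P G
  | amalg (C : Type u) [Group C] (K : Bool → Type u) [∀ i, Group (K i)] (φ : ∀ i, C →* K i)
      (hφ : ∀ i, Function.Injective (φ i)) (hL : LocIndic (Monoid.PushoutI φ))
      (hK : ∀ i, Hier P (K i)) : Hier P (Monoid.PushoutI φ)
  | hnn (K : Type u) [Group K] (A B : Subgroup K) (φ : A ≃* B)
      (hL : LocIndic (HNNExtension K A B φ)) (hK : Hier P K) : Hier P (HNNExtension K A B φ)

theorem result (R : Type u) [DivisionRing R] (P : ∀ (G : Type u) [Group G], Prop)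
    (hP : ∀ (G : Type u) [Group G], P G → HasHF R G) (G : Type u) [Group G] (hG : Hier P G) :
    HasHF R G := by
  induction hG with
  | base G h => exact hP G h
  | triv G h => exact hasHF_trivial
  | sub G H j hj hG ih => exact hasHF_of_injective ih j hj
  | loc G h ih => exact hasHF_of_local ih
  | amalg C K φ hφ hL hK ih => exact hasHF_amalgam φ hφ hL ih
  | hnn K A B φ hL hK ih => exact hasHF_hnn A B φ hL ih

end Pool.Agent.Results.MP_0514ba_al.HierarchyClosure
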