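import Pool.Agent.HFT.LMj

/-! # Hughes-free division rings and limits of groups

Let `R` be a division ring and `G` a group. Suppose that for all finite subsets `E` of `R` and `F` of
`G` there are a division ring `K` and a locally indicable group `Q` such that `K Q` has a Hughes-free
division ring, a map `R → K` which is additive and multiplicative on `E` and fixes `1`, and a map `G → Q` which
is multiplicative and injective on `F`. Then `R G` has a Hughes-free division ring. -/

set_option autoImplicit false

universe u

namespace Pool.Agent.Results.MP_0514ba_al.LimitClosure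

open Pool.Agent.HFT

theorem result (R : Type u) [DivisionRing R] (G : Type u) [Group G]
    (h : ∀ (E : Finset R) (F : Finset G), ∃ (K : Type u) (_ : DivisionRing K) (Q : Type u)
      (_ : Group Q) (ρ : R → K) (σ : G → Q), LocIndic Q ∧ HasHF K Q ∧ ρ 1 = 1 ∧
        (∀ x ∈ E, ∀ y ∈ E, ρ (x + y) = ρ x + ρ y ∧ ρ (x * y) = ρ x * ρ y) ∧
        (∀ x ∈ F, ∀ y ∈ F, σ (x * y) = σ x * σ y) ∧ Set.InjOn σ (F : Set G)) :
    HasHF R G :=
  hasHF_of_limit h

end Pool.Agent.Results.MP_0514ba_al.LimitClosure
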