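import Pool.Agent.HFT.PRc

/-! # Hughes-free division rings and residual properties

Let `G` be a group such that for every `g ≠ 1` in `G` there is a homomorphism `f` from `G` to a locally
indicable group `Q` with `f g ≠ 1` such that `K Q` has a Hughes-free division ring for every division ring
`K`. Then `R G` has a Hughes-free division ring for every division ring `R`. -/

set_option autoImplicit false

universe u

namespace Pool.Agent.Results.MP_0514ba_al.ResidualClosure

open Pool.Agent.HFT

theorem result (G : Type u) [Group G]
    (h : ∀ g : G, g ≠ 1 → ∃ (Q : Type u) (_ : Group Q) (f : G →* Q), LocIndic Q ∧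
      (∀ (K : Type u) [DivisionRing K], HasHF K Q) ∧ f g ≠ 1)
    (R : Type u) [DivisionRing R] : HasHF R G :=
  hasHF_of_residual h R

end Pool.Agent.Results.MP_0514ba_al.ResidualClosure
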